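import Mathlib

/-!
# Tests with few cycles: the weights at which all triangle inequalities are tight
-/

set_option autoImplicit false

namespace Pool.Agent.K4H91.TT

open Finset MvPolynomial

/-- Sets of edges without cycles, or with one cycle which is a triangle: the sets which can be built
from the empty set or from a triangle by adding edges, each with at least one new end. -/
inductive Tame {n : ℕ} : Finset (Sym2 (Fin n)) → Prop
  | empty : Tame ∅
  | tri (x y z : Fin n) (hxy : x ≠ y) (hyz : y ≠ z) (hxz : x ≠ z) :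
      Tame {s(x, y), s(y, z), s(x, z)}
  | add (T : Finset (Sym2 (Fin n))) (x y : Fin n) (hT : Tame T) (hxy : x ≠ y)
      (hx : ∀ e ∈ T, x ∉ e) : Tame (insert s(x, y) T)

section

variable {n : ℕ}

/-- the three classes of vertices: `0`, `1`, `2`, and the rest -/
def cls (x : Fin n) : ℕ :=
  if (x : ℕ) < n / 3 then 0 else if (x : ℕ) < 2 * (n / 3) then 1 else
    if (x : ℕ) < 3 * (n / 3) then 2 else 3

/-- the edges between different classes -/
def tight (x y : Fin n) : Prop := cls x ≠ cls y ∧ cls x < 3 ∧ cls y < 3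

instance (x y : Fin n) : Decidable (tight x y) := by unfold tight; infer_instance

theorem tight_comm (x y : Fin n) : tight x y ↔ tight y x := by
  unfold tight
  rw [ne_comm]
  tauto

/-- the parameters: a number for each vertex and a number for each edge -/
abbrev Par (n : ℕ) : Type := Fin n ⊕ Sym2 (Fin n)

/-- the sign with which the number of the vertex `x` enters the weight of the edge to `y` -/
def sg (x y : Fin n) : ℝ := if cls x = 1 ∧ cls y = 2 then -1 else 1

theorem sg_ne (x y : Fin n) : sg x y ≠ 0 := by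
  unfold sg
  split_ifs <;> norm_num

/-- the weight of an edge as a polynomial in the parameters -/
noncomputable def Wp : Sym2 (Fin n) → MvPolynomial (Par n) ℝ :=
  Sym2.lift ⟨fun x y => if tight x y then C (sg x y) * X (Sum.inl x) + C (sg y x) * X (Sum.inl y)
    else X (Sum.inr s(x, y)), by
      intro x y
      beta_reduce
      by_cases h : tight x y
      · rw [if_pos h, if_pos ((tight_comm x y).1 h), add_comm]
      · rw [if_neg h, if_neg (fun h' => h ((tight_comm x y).2 h')), Sym2.eq_swap]⟩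

/-- the weight of an edge -/
noncomputable def W (θ : Par n → ℝ) (e : Sym2 (Fin n)) : ℝ := eval θ (Wp e)

theorem W_tight (θ : Par n → ℝ) {x y : Fin n} (h : tight x y) :
    W θ s(x, y) = sg x y * θ (Sum.inl x) + sg y x * θ (Sum.inl y) := by
  unfold W Wp
  rw [Sym2.lift_mk]
  simp [h]

theorem W_free (θ : Par n → ℝ) {x y : Fin n} (h : ¬ tight x y) :
    W θ s(x, y) = θ (Sum.inr s(x, y)) := by
  unfold W Wp
  rw [Sym2.lift_mk]
  simp [h]

/-- the weight depends only on the parameters of the edge and its ends -/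
theorem W_congr (θ θ' : Par n → ℝ) (e : Sym2 (Fin n)) (h1 : ∀ x ∈ e, θ (Sum.inl x) = θ' (Sum.inl x))
    (h2 : θ (Sum.inr e) = θ' (Sum.inr e)) : W θ e = W θ' e := by
  induction e with
  | h x y =>
    by_cases h : tight x y
    · rw [W_tight θ h, W_tight θ' h, h1 x (by simp), h1 y (by simp)]
    · rw [W_free θ h, W_free θ' h, h2]

/-- all assignments which satisfy the tight equations in `T` occur -/
def Real (T : Finset (Sym2 (Fin n))) : Prop :=
  ∀ y : Sym2 (Fin n) → ℝ, (∀ i k j : Fin n, cls i = 0 → cls k = 1 → cls j = 2 →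
    s(i, k) ∈ T → s(k, j) ∈ T → s(i, j) ∈ T → y s(i, j) = y s(i, k) + y s(k, j)) →
    ∃ θ : Par n → ℝ, ∀ e ∈ T, W θ e = y e

/-- all assignments occur -/
def Onto (T : Finset (Sym2 (Fin n))) : Prop :=
  ∀ y : Sym2 (Fin n) → ℝ, ∃ θ : Par n → ℝ, ∀ e ∈ T, W θ e = y e

/-- changing the parameters to get one more edge with a new end right -/
theorem add_step (T : Finset (Sym2 (Fin n))) (x z : Fin n) (hxz : x ≠ z) (hx : ∀ e ∈ T, x ∉ e)
    (y : Sym2 (Fin n) → ℝ) (θ : Par n → ℝ) (hθ : ∀ e ∈ T, W θ e = y e) :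
    ∃ θ' : Par n → ℝ, ∀ e ∈ insert s(x, z) T, W θ' e = y e := by
  classical
  by_cases h : tight x z
  · refine ⟨Function.update θ (Sum.inl x)
      ((y s(x, z) - sg z x * θ (Sum.inl z)) / sg x z), fun e he => ?_⟩
    rcases Finset.mem_insert.1 he with rfl | he
    · rw [W_tight _ h, Function.update_self, Function.update_of_ne]
      · have := sg_ne x z
        field_simp
        ring
      · simpa using hxz.symm
    · rw [← hθ e he]
      apply W_congr
      · intro v hv
        rw [Function.update_of_ne]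
        intro hvx
        simp only [Sum.inl.injEq] at hvx
        rw [hvx] at hv
        exact hx e he hv
      · rw [Function.update_of_ne (by simp)]
  · refine ⟨Function.update θ (Sum.inr s(x, z)) (y s(x, z)), fun e he => ?_⟩
    rcases Finset.mem_insert.1 he with rfl | he
    · rw [W_free _ h, Function.update_self]
    · rw [← hθ e he]
      apply W_congr
      · intro v _
        rw [Function.update_of_ne (by simp)]
      · rw [Function.update_of_ne]
        intro h'
        simp only [Sum.inr.injEq] at h'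
        apply hx e he
        rw [h']
        simp

/-- edges which are not between the classes are free -/
theorem free_step (T : Finset (Sym2 (Fin n))) (x z : Fin n) (h : ¬ tight x z) (hT : Onto T) :
    Onto (insert s(x, z) T) := by
  classical
  intro y
  obtain ⟨θ, hθ⟩ := hT y
  by_cases hm : s(x, z) ∈ T
  · rw [Finset.insert_eq_of_mem hm]
    exact ⟨θ, hθ⟩
  · refine ⟨Function.update θ (Sum.inr s(x, z)) (y s(x, z)), fun e he => ?_⟩
    rcases Finset.mem_insert.1 he with rfl | he
    · rw [W_free _ h, Function.update_self]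
    · rw [← hθ e he]
      apply W_congr
      · intro v _
        rw [Function.update_of_ne (by simp)]
      · rw [Function.update_of_ne]
        intro h'
        simp only [Sum.inr.injEq] at h'
        exact hm (h' ▸ he)

theorem path_onto (a b c : Fin n) (hab : a ≠ b) (hbc : b ≠ c) (hac : a ≠ c) :
    Onto ({s(a, b), s(b, c)} : Finset (Sym2 (Fin n))) := by
  intro y
  obtain ⟨θ, hθ⟩ := add_step ∅ b c hbc (by simp) y 0 (by simp)
  obtain ⟨θ', hθ'⟩ := add_step {s(b, c)} a b hab (by simp [hab, hac]) y θ hθ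
  exact ⟨θ', hθ'⟩

theorem Onto.mono {T V : Finset (Sym2 (Fin n))} (h : Onto T) (hV : V ⊆ T) : Onto V := by
  intro y
  obtain ⟨θ, hθ⟩ := h y
  exact ⟨θ, fun e he => hθ e (hV he)⟩

/-- the triangle -/
theorem tri_real (x y z : Fin n) (hxy : x ≠ y) (hyz : y ≠ z) (hxz : x ≠ z) :
    Real ({s(x, y), s(y, z), s(x, z)} : Finset (Sym2 (Fin n))) := by
  intro w hw
  by_cases h1 : tight x y
  swap
  · obtain ⟨θ, hθ⟩ := (free_step _ x y h1 (path_onto y z x hyz hxz.symm hxy.symm)) w
    refine ⟨θ, fun e he => hθ e ?_⟩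
    simp only [Finset.mem_insert, Finset.mem_singleton] at he ⊢
    rcases he with rfl | rfl | rfl
    · exact Or.inl rfl
    · exact Or.inr (Or.inl rfl)
    · exact Or.inr (Or.inr Sym2.eq_swap)
  by_cases h2 : tight y z
  swap
  · obtain ⟨θ, hθ⟩ := (free_step _ y z h2 (path_onto y x z hxy.symm hxz hyz)) w
    refine ⟨θ, fun e he => hθ e ?_⟩
    simp only [Finset.mem_insert, Finset.mem_singleton] at he ⊢
    rcases he with rfl | rfl | rfl
    · exact Or.inr (Or.inl Sym2.eq_swap)
    · exact Or.inl rfl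
    · exact Or.inr (Or.inr rfl)
  by_cases h3 : tight x z
  swap
  · obtain ⟨θ, hθ⟩ := (free_step _ x z h3 (path_onto x y z hxy hyz hxz)) w
    refine ⟨θ, fun e he => hθ e ?_⟩
    simp only [Finset.mem_insert, Finset.mem_singleton] at he ⊢
    rcases he with rfl | rfl | rfl
    · exact Or.inr (Or.inl rfl)
    · exact Or.inr (Or.inr rfl)
    · exact Or.inl rfl
  -- all three edges are tight
  have key : ∀ i k j : Fin n, cls i = 0 → cls k = 1 → cls j = 2 →
      (∀ e, e ∈ ({s(x, y), s(y, z), s(x, z)} : Finset (Sym2 (Fin n))) ↔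
        e ∈ ({s(i, k), s(k, j), s(i, j)} : Finset (Sym2 (Fin n)))) →
      ∃ θ : Par n → ℝ, ∀ e ∈ ({s(x, y), s(y, z), s(x, z)} : Finset (Sym2 (Fin n))), W θ e = w e := by
    intro i k j hi hk hj hT
    have hik : i ≠ k := by rintro rfl; omega
    have hkj : k ≠ j := by rintro rfl; omega
    have hij : i ≠ j := by rintro rfl; omega
    have tik : tight i k := ⟨by omega, by omega, by omega⟩
    have tkj : tight k j := ⟨by omega, by omega, by omega⟩
    have tij : tight i j := ⟨by omega, by omega, by omega⟩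
    obtain ⟨θ, hθ⟩ := path_onto i k j hik hkj hij w
    refine ⟨θ, fun e he => ?_⟩
    rw [hT] at he
    simp only [Finset.mem_insert, Finset.mem_singleton] at he
    rcases he with rfl | rfl | rfl
    · exact hθ _ (by simp)
    · exact hθ _ (by simp)
    · rw [hw i k j hi hk hj ((hT _).2 (by simp)) ((hT _).2 (by simp)) ((hT _).2 (by simp)),
        ← hθ s(i, k) (by simp), ← hθ s(k, j) (by simp), W_tight θ tik, W_tight θ tkj,
        W_tight θ tij]
      have e1 : sg i k = 1 := if_neg (by omega)
      have e2 : sg k i = 1 := if_neg (by omega)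
      have e3 : sg k j = -1 := if_pos (by omega)
      have e4 : sg j k = 1 := if_neg (by omega)
      have e5 : sg i j = 1 := if_neg (by omega)
      have e6 : sg j i = 1 := if_neg (by omega)
      rw [e1, e2, e3, e4, e5, e6]
      ring
  obtain ⟨a1, a2, a3⟩ := h1
  obtain ⟨b1, b2, b3⟩ := h2
  obtain ⟨c1, c2, c3⟩ := h3
  have hs : ∀ a b : Fin n, s(a, b) = s(b, a) := fun a b => Sym2.eq_swap
  have hx : cls x = 0 ∨ cls x = 1 ∨ cls x = 2 := by omega
  have hy : cls y = 0 ∨ cls y = 1 ∨ cls y = 2 := by omega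
  have hz : cls z = 0 ∨ cls z = 1 ∨ cls z = 2 := by omega
  rcases hx with hx | hx | hx <;> rcases hy with hy | hy | hy <;> rcases hz with hz | hz | hz <;>
    try omega
  · exact key x y z hx hy hz fun e => by simp only [Finset.mem_insert, Finset.mem_singleton]
  · refine key x z y hx hz hy fun e => ?_
    simp only [Finset.mem_insert, Finset.mem_singleton]
    rw [hs z y]
    tauto
  · refine key y x z hy hx hz fun e => ?_
    simp only [Finset.mem_insert, Finset.mem_singleton]
    rw [hs y x]
    tauto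
  · refine key z x y hz hx hy fun e => ?_
    simp only [Finset.mem_insert, Finset.mem_singleton]
    rw [hs z x, hs z y]
    tauto
  · refine key y z x hy hz hx fun e => ?_
    simp only [Finset.mem_insert, Finset.mem_singleton]
    rw [hs z x, hs y x]
    tauto
  · refine key z y x hz hy hx fun e => ?_
    simp only [Finset.mem_insert, Finset.mem_singleton]
    rw [hs z y, hs y x, hs z x]
    tauto

theorem real_of_tame {T : Finset (Sym2 (Fin n))} (hT : Tame T) : Real T := by
  induction hT with
  | empty => exact fun y _ => ⟨0, by simp⟩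
  | tri x y z hxy hyz hxz => exact tri_real x y z hxy hyz hxz
  | add T x z _ hxz hx ih =>
    intro y hy
    obtain ⟨θ, hθ⟩ := ih y (fun i k j hi hk hj h1 h2 h3 => hy i k j hi hk hj
      (Finset.mem_insert_of_mem h1) (Finset.mem_insert_of_mem h2) (Finset.mem_insert_of_mem h3))
    exact add_step T x z hxz hx y θ hθ

theorem mem_tri {a b x y z : Fin n}
    (h : s(a, b) ∈ ({s(x, y), s(y, z), s(x, z)} : Finset (Sym2 (Fin n)))) :
    (a = x ∨ a = y ∨ a = z) ∧ (b = x ∨ b = y ∨ b = z) := by
  simp only [Finset.mem_insert, Finset.mem_singleton, Sym2.eq_iff] at h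
  rcases h with (⟨rfl, rfl⟩ | ⟨rfl, rfl⟩) | (⟨rfl, rfl⟩ | ⟨rfl, rfl⟩) | (⟨rfl, rfl⟩ | ⟨rfl, rfl⟩) <;>
    simp

theorem three {p q r : ℕ} (h0 : p = 0 ∨ q = 0 ∨ r = 0) (h1 : p = 1 ∨ q = 1 ∨ r = 1)
    (h2 : p = 2 ∨ q = 2 ∨ r = 2) : p ≠ q ∧ q ≠ r ∧ p ≠ r := by
  rcases h0 with h0 | h0 | h0 <;> rcases h1 with h1 | h1 | h1 <;>
    rcases h2 with h2 | h2 | h2 <;> omega

theorem cls_cases {a x y z : Fin n} {c : ℕ} (h : a = x ∨ a = y ∨ a = z) (hc : cls a = c) :
    cls x = c ∨ cls y = c ∨ cls z = c := by
  rcases h with rfl | rfl | rfl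
  · exact Or.inl hc
  · exact Or.inr (Or.inl hc)
  · exact Or.inr (Or.inr hc)

theorem eq_of_cls {a a' x y z : Fin n} (h : a = x ∨ a = y ∨ a = z) (h' : a' = x ∨ a' = y ∨ a' = z)
    (hd : cls x ≠ cls y ∧ cls y ≠ cls z ∧ cls x ≠ cls z) (hc : cls a = cls a') : a = a' := by
  obtain ⟨d1, d2, d3⟩ := hd
  rcases h with rfl | rfl | rfl <;> rcases h' with rfl | rfl | rfl <;>
    first | rfl | exact absurd hc d1 | exact absurd hc d2 | exact absurd hc d3 |
      exact absurd hc.symm d1 | exact absurd hc.symm d2 | exact absurd hc.symm d3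

/-- a tame set contains at most one triangle between the classes -/
theorem tri_unique {T : Finset (Sym2 (Fin n))} (hT : Tame T) :
    ∀ i k j i' k' j' : Fin n, cls i = 0 → cls k = 1 → cls j = 2 → cls i' = 0 → cls k' = 1 →
      cls j' = 2 → s(i, k) ∈ T → s(k, j) ∈ T → s(i, j) ∈ T →
      s(i', k') ∈ T → s(k', j') ∈ T → s(i', j') ∈ T → i = i' ∧ k = k' ∧ j = j' := by
  induction hT with
  | empty =>
    intro i k j i' k' j' _ _ _ _ _ _ h
    simp at h
  | tri x y z hxy hyz hxz =>
    intro i k j i' k' j' hi hk hj hi' hk' hj' h1 h2 h3 h1' h2' h3'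
    obtain ⟨m1, m2⟩ := mem_tri h1
    obtain ⟨-, m3⟩ := mem_tri h2
    obtain ⟨m1', m2'⟩ := mem_tri h1'
    obtain ⟨-, m3'⟩ := mem_tri h2'
    have hd := three (cls_cases m1 hi) (cls_cases m2 hk) (cls_cases m3 hj)
    exact ⟨eq_of_cls m1 m1' hd (hi.trans hi'.symm), eq_of_cls m2 m2' hd (hk.trans hk'.symm),
      eq_of_cls m3 m3' hd (hj.trans hj'.symm)⟩
  | add T x z _ hxz hx ih =>
    -- no triangle contains the new edge
    have key : ∀ i k j : Fin n, cls i = 0 → cls k = 1 → cls j = 2 → s(i, k) ∈ insert s(x, z) T →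
        s(k, j) ∈ insert s(x, z) T → s(i, j) ∈ insert s(x, z) T →
        s(i, k) ∈ T ∧ s(k, j) ∈ T ∧ s(i, j) ∈ T := by
      intro i k j hi hk hj h1 h2 h3
      have hik : i ≠ k := by rintro rfl; omega
      have hkj : k ≠ j := by rintro rfl; omega
      have hij : i ≠ j := by rintro rfl; omega
      have nx : ∀ a b c : Fin n, a ≠ b → b ≠ c → a ≠ c → s(a, b) ∈ insert s(x, z) T →
          s(a, c) ∈ insert s(x, z) T → a ≠ x := by
        rintro a b c hab hbc hac g1 g2 rfl
        have e1 : s(a, b) = s(a, z) := by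
          rcases Finset.mem_insert.1 g1 with g | g
          · exact g
          · exact absurd (by simp) (hx _ g)
        have e2 : s(a, c) = s(a, z) := by
          rcases Finset.mem_insert.1 g2 with g | g
          · exact g
          · exact absurd (by simp) (hx _ g)
        rw [Sym2.congr_right] at e1 e2
        exact hbc (e1.trans e2.symm)
      have i1 := nx i k j hik hkj hij h1 h3
      have k1 := nx k i j hik.symm hij hkj (by rw [Sym2.eq_swap (a := k) (b := i)]; exact h1) h2
      have j1 := nx j i k hij.symm hik hkj.symm (by rw [Sym2.eq_swap (a := j) (b := i)]; exact h3)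
        (by rw [Sym2.eq_swap (a := j) (b := k)]; exact h2)
      have nm : ∀ a b : Fin n, a ≠ x → b ≠ x → s(a, b) ∈ insert s(x, z) T → s(a, b) ∈ T := by
        intro a b ha hb h
        rcases Finset.mem_insert.1 h with g | g
        · exfalso
          have : x ∈ s(a, b) := by rw [g]; simp
          rw [Sym2.mem_iff] at this
          rcases this with h | h
          · exact ha h.symm
          · exact hb h.symm
        · exact g
      exact ⟨nm i k i1 k1 h1, nm k j k1 j1 h2, nm i j i1 j1 h3⟩
    intro i k j i' k' j' hi hk hj hi' hk' hj' h1 h2 h3 h1' h2' h3'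
    obtain ⟨g1, g2, g3⟩ := key i k j hi hk hj h1 h2 h3
    obtain ⟨g1', g2', g3'⟩ := key i' k' j' hi' hk' hj' h1' h2' h3'
    exact ih i k j i' k' j' hi hk hj hi' hk' hj' g1 g2 g3 g1' g2' g3'

/-- subsets -/
theorem real_subset {T V : Finset (Sym2 (Fin n))} (hT : Tame T) (hV : V ⊆ T) : Real V := by
  classical
  intro y hy
  by_cases h : ∃ i k j : Fin n, cls i = 0 ∧ cls k = 1 ∧ cls j = 2 ∧ s(i, k) ∈ T ∧ s(k, j) ∈ T ∧
      s(i, j) ∈ T
  swap
  · obtain ⟨θ, hθ⟩ := real_of_tame hT y (fun i k j hi hk hj h1 h2 h3 =>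
      absurd ⟨i, k, j, hi, hk, hj, h1, h2, h3⟩ h)
    exact ⟨θ, fun e he => hθ e (hV he)⟩
  obtain ⟨i, k, j, hi, hk, hj, h1, h2, h3⟩ := h
  have hik : i ≠ k := by rintro rfl; omega
  have hkj : k ≠ j := by rintro rfl; omega
  have hij : i ≠ j := by rintro rfl; omega
  have hu := tri_unique hT
  have n1 : s(i, k) ≠ s(i, j) := by
    rw [Ne, Sym2.congr_right]
    exact hkj
  have n2 : s(k, j) ≠ s(i, j) := by
    rw [Ne, Sym2.congr_left]
    exact hik.symm
  have n3 : s(i, k) ≠ s(k, j) := by
    rw [Ne, Sym2.eq_iff]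
    tauto
  -- change `y` outside `V`
  obtain ⟨y', hy1, hy2⟩ : ∃ y' : Sym2 (Fin n) → ℝ, (∀ e ∈ V, y' e = y e) ∧
      y' s(i, j) = y' s(i, k) + y' s(k, j) := by
    by_cases m1 : s(i, j) ∈ V
    · by_cases m2 : s(i, k) ∈ V
      · by_cases m3 : s(k, j) ∈ V
        · exact ⟨y, fun _ _ => rfl, hy i k j hi hk hj m2 m3 m1⟩
        · refine ⟨Function.update y s(k, j) (y s(i, j) - y s(i, k)), fun e he => ?_, ?_⟩
          · rw [Function.update_of_ne (by rintro rfl; exact m3 he)]
          · rw [Function.update_self, Function.update_of_ne n2.symm, Function.update_of_ne n3]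
            ring
      · refine ⟨Function.update y s(i, k) (y s(i, j) - y s(k, j)), fun e he => ?_, ?_⟩
        · rw [Function.update_of_ne (by rintro rfl; exact m2 he)]
        · rw [Function.update_self, Function.update_of_ne n1.symm, Function.update_of_ne n3.symm]
          ring
    · refine ⟨Function.update y s(i, j) (y s(i, k) + y s(k, j)), fun e he => ?_, ?_⟩
      · rw [Function.update_of_ne (by rintro rfl; exact m1 he)]
      · rw [Function.update_self, Function.update_of_ne n1, Function.update_of_ne n2]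
  obtain ⟨θ, hθ⟩ := real_of_tame hT y' (fun i' k' j' hi' hk' hj' g1 g2 g3 => by
    obtain ⟨rfl, rfl, rfl⟩ := hu i k j i' k' j' hi hk hj hi' hk' hj' h1 h2 h3 g1 g2 g3
    exact hy2)
  exact ⟨θ, fun e he => by rw [hθ e (hV he), hy1 e he]⟩

end

end Pool.Agent.K4H91.TT
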