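import Pool.Agent.K4H91.TT.Sign

/-!
# Decision trees whose tests have few cycles
-/

set_option autoImplicit false

namespace Pool.Agent.K4H91.TT

open Finset MvPolynomial Filter Topology

/-- Decision trees which test the signs of polynomials in the weights. -/
inductive Tree (n : ℕ) : Type
  | leaf (answer : Bool) : Tree n
  | node (P : MvPolynomial (Sym2 (Fin n)) ℝ) (neg zero pos : Tree n) : Tree n

/-- the tests of a tree -/
def Tree.tests {n : ℕ} : Tree n → List (MvPolynomial (Sym2 (Fin n)) ℝ)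
  | .leaf _ => []
  | .node P a b c => P :: (a.tests ++ (b.tests ++ c.tests))

/-- each test has at most one cycle among the edges on which it depends, and this is a triangle -/
def Tree.FewCycles {n : ℕ} (t : Tree n) : Prop :=
  ∀ P ∈ t.tests, ∃ T : Finset (Sym2 (Fin n)), Tame T ∧ P.vars ⊆ T

/-- the set of edges contains a triangle -/
def HasTri {n : ℕ} (T : Finset (Sym2 (Fin n))) : Prop :=
  ∃ x y z : Fin n, x ≠ y ∧ y ≠ z ∧ x ≠ z ∧ s(x, y) ∈ T ∧ s(y, z) ∈ T ∧ s(x, z) ∈ T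

/-- the answer for the weights `w` -/
noncomputable def Tree.run {n : ℕ} (w : Sym2 (Fin n) → ℝ) : Tree n → Bool
  | .leaf a => a
  | .node P a b c => match SignType.sign (eval w P) with
    | .neg => a.run w
    | .zero => b.run w
    | .pos => c.run w

open Classical in
/-- the number of the tests for the weights `w` which depend on all edges of some triangle -/
noncomputable def Tree.cost {n : ℕ} (w : Sym2 (Fin n) → ℝ) : Tree n → ℕ
  | .leaf _ => 0
  | .node P a b c => (if HasTri P.vars then 1 else 0) + match SignType.sign (eval w P) with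
    | .neg => a.cost w
    | .zero => b.cost w
    | .pos => c.cost w

/-- each edge is a shortest path -/
def AllShortest {n : ℕ} (w : Sym2 (Fin n) → ℝ) : Prop :=
  ∀ x y z : Fin n, x ≠ y → y ≠ z → x ≠ z → w s(x, z) ≤ w s(x, y) + w s(y, z)

section

variable {n : ℕ}

/-- the triangles between the classes -/
structure IsTr (τ : Fin n × Fin n × Fin n) : Prop where
  c0 : cls τ.1 = 0
  c1 : cls τ.2.1 = 1
  c2 : cls τ.2.2 = 2

/-- the set of edges contains the triangle -/
def Has (T : Finset (Sym2 (Fin n))) (τ : Fin n × Fin n × Fin n) : Prop :=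
  s(τ.1, τ.2.1) ∈ T ∧ s(τ.2.1, τ.2.2) ∈ T ∧ s(τ.1, τ.2.2) ∈ T

theorem has_tri {T : Finset (Sym2 (Fin n))} {τ : Fin n × Fin n × Fin n} (hτ : IsTr τ)
    (h : Has T τ) : HasTri T := by
  obtain ⟨c0, c1, c2⟩ := hτ
  refine ⟨τ.1, τ.2.1, τ.2.2, ?_, ?_, ?_, h⟩
  · intro h; rw [h] at c0; omega
  · intro h; rw [h] at c1; omega
  · intro h; rw [h] at c0; omega

/-- the triangle is in one of the tests on the path of `w` -/
def Tree.Tested (w : Sym2 (Fin n) → ℝ) (τ : Fin n × Fin n × Fin n) : Tree n → Prop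
  | .leaf _ => False
  | .node P a b c => Has P.vars τ ∨ match SignType.sign (eval w P) with
    | .neg => a.Tested w τ
    | .zero => b.Tested w τ
    | .pos => c.Tested w τ

open Classical in
theorem tested_card (w : Sym2 (Fin n) → ℝ) (t : Tree n) : t.FewCycles →
    (univ.filter fun τ : Fin n × Fin n × Fin n => IsTr τ ∧ t.Tested w τ).card ≤ t.cost w := by
  induction t with
  | leaf a =>
    intro _
    simp [Tree.Tested, Tree.cost]
  | node P a b c iha ihb ihc =>
    intro h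
    have h1 : (univ.filter fun τ : Fin n × Fin n × Fin n => IsTr τ ∧ Has P.vars τ).card ≤
        if HasTri P.vars then 1 else 0 := by
      split_ifs with hT
      · rw [Finset.card_le_one]
        intro τ hτ τ' hτ'
        obtain ⟨-, h1, h2⟩ := Finset.mem_filter.1 hτ
        obtain ⟨-, h1', h2'⟩ := Finset.mem_filter.1 hτ'
        obtain ⟨T, hT1, hT2⟩ := h P (by simp [Tree.tests])
        obtain ⟨e1, e2, e3⟩ := tri_unique hT1 _ _ _ _ _ _ h1.c0 h1.c1 h1.c2 h1'.c0 h1'.c1 h1'.c2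
          (hT2 h2.1) (hT2 h2.2.1) (hT2 h2.2.2) (hT2 h2'.1) (hT2 h2'.2.1) (hT2 h2'.2.2)
        exact Prod.ext e1 (Prod.ext e2 e3)
      · rw [Nat.le_zero, Finset.card_eq_zero, Finset.filter_eq_empty_iff]
        rintro τ - ⟨h1, h2⟩
        exact hT (has_tri h1 h2)
    have h2 : ∀ q : Fin n × Fin n × Fin n → Prop,
        (univ.filter fun τ : Fin n × Fin n × Fin n => IsTr τ ∧ (Has P.vars τ ∨ q τ)).card ≤
        (if HasTri P.vars then 1 else 0) + (univ.filter fun τ => IsTr τ ∧ q τ).card := by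
      intro q
      refine le_trans ?_ (Nat.add_le_add_right h1 _)
      refine le_trans (Finset.card_le_card ?_) (Finset.card_union_le _ _)
      intro τ hτ
      simp only [mem_filter, mem_univ, true_and, mem_union] at hτ ⊢
      tauto
    simp only [Tree.Tested]
    refine (h2 _).trans ?_
    unfold Tree.cost
    refine Nat.add_le_add_left ?_ _
    have ha : a.FewCycles := fun Q hQ => h Q (by simp [Tree.tests, hQ])
    have hb : b.FewCycles := fun Q hQ => h Q (by simp [Tree.tests, hQ])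
    have hc : c.FewCycles := fun Q hQ => h Q (by simp [Tree.tests, hQ])
    generalize SignType.sign (eval w P) = σ
    cases σ
    · exact ihb hb
    · exact iha ha
    · exact ihc hc

/-- without a test of `τ` the path is the same -/
theorem run_eq (w w' : Sym2 (Fin n) → ℝ) (τ : Fin n × Fin n × Fin n) (t : Tree n) :
    (∀ P ∈ t.tests, ¬ Has P.vars τ → SignType.sign (eval w P) = SignType.sign (eval w' P)) →
    ¬ t.Tested w τ → t.run w = t.run w' := by
  induction t with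
  | leaf a => exact fun _ _ => rfl
  | node P a b c iha ihb ihc =>
    intro h hn
    unfold Tree.Tested at hn
    rw [not_or] at hn
    obtain ⟨h1, h2⟩ := hn
    have h3 := h P (by simp [Tree.tests]) h1
    unfold Tree.run
    rw [← h3]
    generalize SignType.sign (eval w P) = σ at h2
    cases σ
    · exact ihb (fun Q hQ => h Q (by simp [Tree.tests, hQ])) h2
    · exact iha (fun Q hQ => h Q (by simp [Tree.tests, hQ])) h2
    · exact ihc (fun Q hQ => h Q (by simp [Tree.tests, hQ])) h2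

/-- the probabilistic part -/
theorem prob {Ω : Type} [Fintype Ω] (p : Ω → ℝ) (hp : ∀ ω, 0 ≤ p ω) (hp1 : ∑ ω, p ω = 1)
    (t : Ω → Tree n) (ht : ∀ ω, (t ω).FewCycles) (δ : ℝ) (x0 : Sym2 (Fin n) → ℝ)
    (x : Fin n × Fin n × Fin n → Sym2 (Fin n) → ℝ)
    (h0 : ∑ ω, (if (t ω).run x0 = true then 0 else p ω) ≤ δ)
    (h1 : ∀ τ, IsTr τ → ∑ ω, (if (t ω).run (x τ) = false then 0 else p ω) ≤ δ)
    (hs : ∀ τ, IsTr τ → ∀ ω, ∀ P ∈ (t ω).tests, ¬ Has P.vars τ →
      SignType.sign (eval x0 P) = SignType.sign (eval (x τ) P)) :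
    (1 - 2 * δ) * (Nat.card {τ : Fin n × Fin n × Fin n // IsTr τ} : ℝ) ≤
      ∑ ω, p ω * ((t ω).cost x0 : ℝ) := by
  classical
  have key : ∀ τ, IsTr τ → 1 - 2 * δ ≤ ∑ ω, (if (t ω).Tested x0 τ then p ω else 0) := by
    intro τ hτ
    have h2 : ∑ ω, p ω ≤ ∑ ω, ((if (t ω).Tested x0 τ then p ω else 0) +
        ((if (t ω).run x0 = true then 0 else p ω) +
          (if (t ω).run (x τ) = false then 0 else p ω))) := by
      refine Finset.sum_le_sum fun ω _ => ?_
      have hpω := hp ω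
      by_cases hT : (t ω).Tested x0 τ
      · rw [if_pos hT]
        split_ifs <;> linarith
      · have h3 := run_eq x0 (x τ) τ (t ω) (hs τ hτ ω) hT
        rw [if_neg hT, ← h3]
        cases (t ω).run x0
        · simp
        · simp
    rw [Finset.sum_add_distrib, Finset.sum_add_distrib, hp1] at h2
    have h3 := h1 τ hτ
    linarith
  have h4 : ∑ τ ∈ univ.filter (fun τ : Fin n × Fin n × Fin n => IsTr τ), (1 - 2 * δ) ≤
      ∑ τ ∈ univ.filter (fun τ : Fin n × Fin n × Fin n => IsTr τ),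
        ∑ ω, (if (t ω).Tested x0 τ then p ω else 0) :=
    Finset.sum_le_sum fun τ hτ => key τ (Finset.mem_filter.1 hτ).2
  have h5 : Nat.card {τ : Fin n × Fin n × Fin n // IsTr τ} =
      (univ.filter (fun τ : Fin n × Fin n × Fin n => IsTr τ)).card := by
    rw [Nat.card_eq_fintype_card, Fintype.card_subtype]
  rw [h5, mul_comm, ← nsmul_eq_mul, ← Finset.sum_const]
  refine h4.trans ?_
  rw [Finset.sum_comm]
  refine Finset.sum_le_sum fun ω _ => ?_
  rw [← Finset.sum_filter, Finset.sum_const, nsmul_eq_mul, mul_comm, Finset.filter_filter]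
  exact mul_le_mul_of_nonneg_left (by exact_mod_cast tested_card x0 (t ω) (ht ω)) (hp ω)

/-- edges between the first and the last class -/
def IJ (e : Sym2 (Fin n)) : Prop := ∃ i j : Fin n, cls i = 0 ∧ cls j = 2 ∧ e = s(i, j)

open Classical in
/-- the direction to a point where all triangle inequalities are strict -/
noncomputable def u0 (e : Sym2 (Fin n)) : ℝ := if IJ e then -1 else 0

open Classical in
/-- the direction to a point where only the path `τ` is a shortcut -/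
noncomputable def u1 (τ : Fin n × Fin n × Fin n) (e : Sym2 (Fin n)) : ℝ :=
  if e = s(τ.1, τ.2.2) then 1 else if IJ e then -3 else
    if ∃ k : Fin n, k ≠ τ.2.1 ∧ e = s(τ.1, k) then 2 else 0

theorem ij_iff (x y : Fin n) (hx : cls x ≤ cls y) : IJ s(x, y) ↔ cls x = 0 ∧ cls y = 2 := by
  constructor
  · rintro ⟨i, j, hi, hj, h⟩
    rw [Sym2.eq_iff] at h
    rcases h with ⟨rfl, rfl⟩ | ⟨rfl, rfl⟩
    · exact ⟨hi, hj⟩
    · omega
  · rintro ⟨h1, h2⟩
    exact ⟨x, y, h1, h2, rfl⟩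

theorem vio_u0 {i k j : Fin n} (hi : cls i = 0) (hk : cls k = 1) (hj : cls j = 2) :
    vio u0 i k j = -1 := by
  unfold vio u0
  rw [if_pos ((ij_iff i j (by omega)).2 ⟨hi, hj⟩), if_neg, if_neg]
  · ring
  · rw [ij_iff k j (by omega)]
    omega
  · rw [ij_iff i k (by omega)]
    omega

theorem vio_u1_self {τ : Fin n × Fin n × Fin n} (hτ : IsTr τ) :
    vio (u1 τ) τ.1 τ.2.1 τ.2.2 = 1 := by
  obtain ⟨hi, hk, hj⟩ := hτ
  obtain ⟨i, k, j⟩ := τ
  dsimp only at hi hk hj ⊢
  have hik : i ≠ k := by rintro rfl; omega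
  have hkj : k ≠ j := by rintro rfl; omega
  have hij : i ≠ j := by rintro rfl; omega
  unfold vio u1
  dsimp only
  have n1 : s(i, k) ≠ s(i, j) := by
    rw [Ne, Sym2.congr_right]
    exact hkj
  have n2 : s(k, j) ≠ s(i, j) := by
    rw [Ne, Sym2.congr_left]
    exact hik.symm
  have n3 : ¬ IJ s(i, k) := by
    rw [ij_iff i k (by omega)]
    omega
  have n4 : ¬ IJ s(k, j) := by
    rw [ij_iff k j (by omega)]
    omega
  have n5 : ¬ ∃ k', k' ≠ k ∧ s(i, k) = s(i, k') := by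
    rintro ⟨k', h1, h2⟩
    rw [Sym2.congr_right] at h2
    exact h1 h2.symm
  have n6 : ¬ ∃ k', k' ≠ k ∧ s(k, j) = s(i, k') := by
    rintro ⟨k', h1, h2⟩
    rw [Sym2.eq_iff] at h2
    rcases h2 with ⟨h2, -⟩ | ⟨-, h2⟩
    · exact hik h2.symm
    · exact hij h2.symm
  rw [if_pos rfl, if_neg n1, if_neg n3, if_neg n5, if_neg n2, if_neg n4, if_neg n6]
  ring

theorem vio_u1_other {τ : Fin n × Fin n × Fin n} (hτ : IsTr τ) {i k j : Fin n} (hi : cls i = 0)
    (hk : cls k = 1) (hj : cls j = 2) (hne : ¬ (i = τ.1 ∧ k = τ.2.1 ∧ j = τ.2.2)) :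
    vio (u1 τ) i k j < 0 := by
  obtain ⟨hi', hk', hj'⟩ := hτ
  obtain ⟨i', k', j'⟩ := τ
  dsimp only at hi' hk' hj' hne
  have nonneg : ∀ e : Sym2 (Fin n), ¬ IJ e → 0 ≤ u1 (i', k', j') e := by
    intro e he
    unfold u1
    rw [if_neg he]
    split_ifs <;> norm_num
  have n3 : ¬ IJ s(i, k) := by
    rw [ij_iff i k (by omega)]
    omega
  have n4 : ¬ IJ s(k, j) := by
    rw [ij_iff k j (by omega)]
    omega
  have m1 := nonneg _ n3
  have m2 := nonneg _ n4
  unfold vio
  by_cases h : i = i' ∧ j = j'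
  · obtain ⟨rfl, rfl⟩ := h
    have hkk : k ≠ k' := fun h => hne ⟨rfl, h, rfl⟩
    have hkj : k ≠ j := by rintro rfl; omega
    have e1 : u1 (i, k', j) s(i, j) = 1 := by
      unfold u1
      rw [if_pos rfl]
    have e2 : u1 (i, k', j) s(i, k) = 2 := by
      unfold u1
      rw [if_neg (by rw [Sym2.congr_right]; exact hkj), if_neg n3, if_pos ⟨k, hkk, rfl⟩]
    rw [e1, e2]
    linarith
  · have e1 : u1 (i', k', j') s(i, j) = -3 := by
      unfold u1
      rw [if_neg, if_pos ((ij_iff i j (by omega)).2 ⟨hi, hj⟩)]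
      dsimp only
      rw [Sym2.eq_iff]
      rintro (⟨rfl, rfl⟩ | ⟨rfl, rfl⟩)
      · exact h ⟨rfl, rfl⟩
      · omega
    rw [e1]
    linarith

theorem abs_u0 (e : Sym2 (Fin n)) : |u0 e| ≤ 3 := by
  unfold u0
  split_ifs <;> norm_num

theorem abs_u1 (τ : Fin n × Fin n × Fin n) (e : Sym2 (Fin n)) : |u1 τ e| ≤ 3 := by
  unfold u1
  split_ifs <;> norm_num

/-- the box for the parameters -/
def box : Par n → Set ℝ := Sum.elim (fun x => if cls x = 1 then Set.Ioo 0 1 else Set.Ioo 10 11)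
  (fun _ => Set.Ioo 15 16)

theorem box_inf (i : Par n) : (box i).Infinite := by
  rcases i with x | e
  · show (if cls x = 1 then Set.Ioo (0 : ℝ) 1 else Set.Ioo 10 11).Infinite
    split_ifs
    · exact Set.Ioo_infinite (by norm_num)
    · exact Set.Ioo_infinite (by norm_num)
  · exact Set.Ioo_infinite (by norm_num)

theorem box_v {θ : Par n → ℝ} (hθ : ∀ i, θ i ∈ box i) (x : Fin n) :
    (cls x = 1 → 0 < θ (Sum.inl x) ∧ θ (Sum.inl x) < 1) ∧
      (cls x ≠ 1 → 10 < θ (Sum.inl x) ∧ θ (Sum.inl x) < 11) := by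
  have h := hθ (Sum.inl x)
  constructor
  · intro hx
    have h2 : θ (Sum.inl x) ∈ if cls x = 1 then Set.Ioo (0 : ℝ) 1 else Set.Ioo 10 11 := h
    rw [if_pos hx] at h2
    exact h2
  · intro hx
    have h2 : θ (Sum.inl x) ∈ if cls x = 1 then Set.Ioo (0 : ℝ) 1 else Set.Ioo 10 11 := h
    rw [if_neg hx] at h2
    exact h2

theorem W01 {θ : Par n → ℝ} (hθ : ∀ i, θ i ∈ box i) {i k : Fin n} (hi : cls i = 0)
    (hk : cls k = 1) : 10 < W θ s(i, k) ∧ W θ s(i, k) < 12 := by
  rw [W_tight θ (x := i) (y := k) ⟨by omega, by omega, by omega⟩]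
  have e1 : sg i k = 1 := if_neg (by omega)
  have e2 : sg k i = 1 := if_neg (by omega)
  rw [e1, e2]
  have h1 := (box_v hθ i).2 (by omega)
  have h2 := (box_v hθ k).1 hk
  constructor <;> linarith [h1.1, h1.2, h2.1, h2.2]

theorem W12 {θ : Par n → ℝ} (hθ : ∀ i, θ i ∈ box i) {k j : Fin n} (hk : cls k = 1)
    (hj : cls j = 2) : 9 < W θ s(k, j) ∧ W θ s(k, j) < 11 := by
  rw [W_tight θ (x := k) (y := j) ⟨by omega, by omega, by omega⟩]
  have e1 : sg k j = -1 := if_pos (by omega)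
  have e2 : sg j k = 1 := if_neg (by omega)
  rw [e1, e2]
  have h1 := (box_v hθ j).2 (by omega)
  have h2 := (box_v hθ k).1 hk
  constructor <;> linarith [h1.1, h1.2, h2.1, h2.2]

theorem W02 {θ : Par n → ℝ} (hθ : ∀ i, θ i ∈ box i) {i j : Fin n} (hi : cls i = 0)
    (hj : cls j = 2) : 20 < W θ s(i, j) ∧ W θ s(i, j) < 22 := by
  rw [W_tight θ (x := i) (y := j) ⟨by omega, by omega, by omega⟩]
  have e1 : sg i j = 1 := if_neg (by omega)
  have e2 : sg j i = 1 := if_neg (by omega)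
  rw [e1, e2]
  have h1 := (box_v hθ j).2 (by omega)
  have h2 := (box_v hθ i).2 (by omega)
  constructor <;> linarith [h1.1, h1.2, h2.1, h2.2]

/-- the sizes of the weights -/
theorem W_bounds {θ : Par n → ℝ} (hθ : ∀ i, θ i ∈ box i) (x y : Fin n) :
    9 < W θ s(x, y) ∧ (¬ (cls x = 0 ∧ cls y = 2 ∨ cls x = 2 ∧ cls y = 0) → W θ s(x, y) < 16) ∧
      W θ s(x, y) < 22 ∧ (cls x = 0 ∧ cls y = 2 ∨ cls x = 2 ∧ cls y = 0 → 20 < W θ s(x, y)) ∧
      (¬ tight x y → 15 < W θ s(x, y)) := by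
  by_cases ht : tight x y
  · have h5 : ¬ tight x y → 15 < W θ s(x, y) := fun h => absurd ht h
    obtain ⟨t1, t2, t3⟩ := id ht
    have hx : cls x = 0 ∨ cls x = 1 ∨ cls x = 2 := by omega
    have hy : cls y = 0 ∨ cls y = 1 ∨ cls y = 2 := by omega
    rcases hx with hx | hx | hx
    · rcases hy with hy | hy | hy
      · exact absurd (hx.trans hy.symm) t1
      · have h := W01 hθ hx hy
        exact ⟨by linarith [h.1], fun _ => by linarith [h.2], by linarith [h.2],
          fun h' => absurd h' (by omega), h5⟩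
      · have h := W02 hθ hx hy
        exact ⟨by linarith [h.1], fun h' => absurd (by omega) h', h.2, fun _ => h.1, h5⟩
    · rcases hy with hy | hy | hy
      · have h := W01 hθ hy hx
        rw [Sym2.eq_swap] at h
        exact ⟨by linarith [h.1], fun _ => by linarith [h.2], by linarith [h.2],
          fun h' => absurd h' (by omega), h5⟩
      · exact absurd (hx.trans hy.symm) t1
      · have h := W12 hθ hx hy
        exact ⟨by linarith [h.1], fun _ => by linarith [h.2], by linarith [h.2],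
          fun h' => absurd h' (by omega), h5⟩
    · rcases hy with hy | hy | hy
      · have h := W02 hθ hy hx
        rw [Sym2.eq_swap] at h
        exact ⟨by linarith [h.1], fun h' => absurd (by omega) h', h.2, fun _ => h.1, h5⟩
      · have h := W12 hθ hy hx
        rw [Sym2.eq_swap] at h
        exact ⟨by linarith [h.1], fun _ => by linarith [h.2], by linarith [h.2],
          fun h' => absurd h' (by omega), h5⟩
      · exact absurd (hx.trans hy.symm) t1
  · rw [W_free θ ht]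
    have h1 : 15 < θ (Sum.inr s(x, y)) ∧ θ (Sum.inr s(x, y)) < 16 := hθ (Sum.inr s(x, y))
    have h2 : ¬ (cls x = 0 ∧ cls y = 2 ∨ cls x = 2 ∧ cls y = 0) := by
      intro h
      apply ht
      unfold tight
      omega
    refine ⟨by linarith [h1.1], fun _ => h1.2, by linarith [h1.2], fun h => absurd h h2,
      fun _ => h1.1⟩

theorem perturb (θ : Par n → ℝ) (u : Sym2 (Fin n) → ℝ) (hu : ∀ e, |u e| ≤ 3) {ε : ℝ}
    (h0 : 0 < ε) (h1 : ε < 1 / 10) (e : Sym2 (Fin n)) :
    W θ e - 3 / 10 < (W θ + ε • u) e ∧ (W θ + ε • u) e < W θ e + 3 / 10 := by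
  have := abs_le.1 (hu e)
  simp only [Pi.add_apply, Pi.smul_apply, smul_eq_mul]
  constructor <;> nlinarith

theorem pos_near {θ : Par n → ℝ} (hθ : ∀ i, θ i ∈ box i) (u : Sym2 (Fin n) → ℝ)
    (hu : ∀ e, |u e| ≤ 3) {ε : ℝ} (h0 : 0 < ε) (h1 : ε < 1 / 10) (e : Sym2 (Fin n)) :
    0 < (W θ + ε • u) e := by
  have h2 := (perturb θ u hu h0 h1 e).1
  have h3 : 9 < W θ e := by
    induction e with
    | h x y => exact (W_bounds hθ x y).1
  linarith

/-- near a tight point all edges are shortest paths if no path through the three classes is a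
shortcut -/
theorem shortest_near {θ : Par n → ℝ} (hθ : ∀ i, θ i ∈ box i) (u : Sym2 (Fin n) → ℝ)
    (hu : ∀ e, |u e| ≤ 3) (hv : ∀ i k j : Fin n, cls i = 0 → cls k = 1 → cls j = 2 →
      vio u i k j ≤ 0) {ε : ℝ} (h0 : 0 < ε) (h1 : ε < 1 / 10) :
    AllShortest (W θ + ε • u) := by
  intro x y z hxy hyz hxz
  have p1 := perturb θ u hu h0 h1 s(x, z)
  have p2 := perturb θ u hu h0 h1 s(x, y)
  have p3 := perturb θ u hu h0 h1 s(y, z)
  obtain ⟨a1, a2, a3, a4, a5⟩ := W_bounds hθ x z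
  obtain ⟨b1, b2, b3, b4, b5⟩ := W_bounds hθ x y
  obtain ⟨c1, c2, c3, c4, c5⟩ := W_bounds hθ y z
  have tightcase : ∀ i k j : Fin n, cls i = 0 → cls k = 1 → cls j = 2 →
      (W θ + ε • u) s(i, j) ≤ (W θ + ε • u) s(i, k) + (W θ + ε • u) s(k, j) := by
    intro i k j hi hk hj
    have h2 := W_vio θ hi hk hj
    have h3 := hv i k j hi hk hj
    unfold vio at h2 h3
    simp only [Pi.add_apply, Pi.smul_apply, smul_eq_mul]
    nlinarith
  by_cases h : cls x = 0 ∧ cls z = 2 ∨ cls x = 2 ∧ cls z = 0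
  · by_cases hy : cls y = 1
    · rcases h with ⟨hx, hz⟩ | ⟨hx, hz⟩
      · exact tightcase x y z hx hy hz
      · have := tightcase z y x hz hy hx
        rw [Sym2.eq_swap (a := x) (b := z), Sym2.eq_swap (a := x) (b := y),
          Sym2.eq_swap (a := y) (b := z)]
        linarith
    · by_cases t1 : tight x y
      · -- the edge from `x` to `y` is long, the other one is free
        have e1 : 20 < W θ s(x, y) := b4 (by unfold tight at t1; omega)
        have e2 : 15 < W θ s(y, z) := c5 (by unfold tight at t1 ⊢; omega)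
        linarith
      · by_cases t2 : tight y z
        · have e1 : 20 < W θ s(y, z) := c4 (by unfold tight at t2; omega)
          linarith [b5 t1]
        · linarith [b5 t1, c5 t2]
  · linarith [a2 h]

/-- the main theorem, with an arbitrary number of rounds -/
theorem main {Ω : Type} [Fintype Ω] (p : Ω → ℝ) (hp : ∀ ω, 0 ≤ p ω) (hp1 : ∑ ω, p ω = 1)
    (t : Ω → Tree n) (ht : ∀ ω, (t ω).FewCycles) (δ : ℝ)
    (h1 : ∀ w : Sym2 (Fin n) → ℝ, (∀ e, 0 < w e) → AllShortest w →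
      ∑ ω, (if (t ω).run w = true then 0 else p ω) ≤ δ)
    (h2 : ∀ w : Sym2 (Fin n) → ℝ, (∀ e, 0 < w e) → ¬ AllShortest w →
      ∑ ω, (if (t ω).run w = false then 0 else p ω) ≤ δ) :
    ∃ w : Sym2 (Fin n) → ℝ, (∀ e, 0 < w e) ∧ AllShortest w ∧
      (1 - 2 * δ) * (Nat.card {τ : Fin n × Fin n × Fin n // IsTr τ} : ℝ) ≤
        ∑ ω, p ω * ((t ω).cost w : ℝ) := by
  classical
  -- a generic tight point
  let I : Type := Σ ω : Ω, {P : MvPolynomial (Sym2 (Fin n)) ℝ // P ∈ (t ω).tests.toFinset}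
  have hI : ∀ i : I, ∃ Q : MvPolynomial (Par n) ℝ, Q ≠ 0 ∧ ∀ θ : Par n → ℝ, eval θ Q ≠ 0 →
      ∀ u u' : Sym2 (Fin n) → ℝ, (∀ a k j : Fin n, cls a = 0 → cls k = 1 → cls j = 2 →
        s(a, k) ∈ i.2.1.vars → s(k, j) ∈ i.2.1.vars → s(a, j) ∈ i.2.1.vars →
        vio u a k j ≠ 0 ∧ SignType.sign (vio u a k j) = SignType.sign (vio u' a k j)) →
      ∀ᶠ ε in 𝓝[>] (0 : ℝ), SignType.sign (eval (W θ + ε • u) i.2.1) =
        SignType.sign (eval (W θ + ε • u') i.2.1) := by
    rintro ⟨ω, P, hP⟩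
    obtain ⟨T, hT1, hT2⟩ := ht ω P (List.mem_toFinset.1 hP)
    exact sign_lemma P T hT1 hT2
  choose Q hQ0 hQ using hI
  have hprod : ∏ i, Q i ≠ 0 := Finset.prod_ne_zero_iff.2 fun i _ => hQ0 i
  obtain ⟨θ, hθ, hne⟩ : ∃ θ : Par n → ℝ, (∀ i, θ i ∈ box i) ∧ eval θ (∏ i, Q i) ≠ 0 := by
    by_contra hcon
    push Not at hcon
    apply hprod
    refine MvPolynomial.funext_set box box_inf ?_
    intro θ hθ
    rw [map_zero]
    exact hcon θ fun i => hθ i (Set.mem_univ i)
  have hQne : ∀ i, eval θ (Q i) ≠ 0 := by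
    intro i hi
    apply hne
    rw [map_prod]
    exact Finset.prod_eq_zero (Finset.mem_univ i) hi
  -- the signs
  have hev : ∀ᶠ ε in 𝓝[>] (0 : ℝ), ∀ τ : {τ : Fin n × Fin n × Fin n // IsTr τ}, ∀ i : I,
      ¬ Has i.2.1.vars τ.1 → SignType.sign (eval (W θ + ε • u0) i.2.1) =
        SignType.sign (eval (W θ + ε • u1 τ.1) i.2.1) := by
    rw [Filter.eventually_all]
    intro τ
    rw [Filter.eventually_all]
    intro i
    by_cases hh : Has i.2.1.vars τ.1
    · exact Filter.Eventually.of_forall fun ε h => absurd hh h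
    · have := hQ i θ (hQne i) u0 (u1 τ.1) (fun a k j ha hk hj g1 g2 g3 => by
        rw [vio_u0 ha hk hj]
        have h3 : ¬ (a = τ.1.1 ∧ k = τ.1.2.1 ∧ j = τ.1.2.2) := by
          rintro ⟨rfl, rfl, rfl⟩
          exact hh ⟨g1, g2, g3⟩
        have h4 := vio_u1_other τ.2 ha hk hj h3
        refine ⟨by norm_num, ?_⟩
        rw [sign_neg h4, sign_neg (by norm_num)])
      exact this.mono fun ε h _ => h
  have hsmall : ∀ᶠ ε in 𝓝[>] (0 : ℝ), ε < 1 / 10 :=
    (eventually_lt_nhds (by norm_num)).filter_mono nhdsWithin_le_nhds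
  obtain ⟨ε, hε1, hε2, hε3⟩ := (hev.and (hsmall.and self_mem_nhdsWithin)).exists
  have hε3 : (0 : ℝ) < ε := hε3
  refine ⟨W θ + ε • u0, pos_near hθ u0 abs_u0 hε3 hε2, shortest_near hθ u0 abs_u0 ?_ hε3 hε2, ?_⟩
  · intro i k j hi hk hj
    rw [vio_u0 hi hk hj]
    norm_num
  · refine prob p hp hp1 t ht δ (W θ + ε • u0) (fun τ => W θ + ε • u1 τ) ?_ ?_ ?_
    · exact h1 _ (pos_near hθ u0 abs_u0 hε3 hε2) (shortest_near hθ u0 abs_u0 (by
        intro i k j hi hk hj
        rw [vio_u0 hi hk hj]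
        norm_num) hε3 hε2)
    · intro τ hτ
      refine h2 _ (pos_near hθ _ (abs_u1 τ) hε3 hε2) ?_
      intro hall
      obtain ⟨c0, c1, c2⟩ := id hτ
      have h3 := hall τ.1 τ.2.1 τ.2.2 (by intro h; rw [h] at c0; omega)
        (by intro h; rw [h] at c1; omega) (by intro h; rw [h] at c0; omega)
      have h4 := W_vio θ c0 c1 c2
      have h5 := vio_u1_self hτ
      unfold vio at h4 h5
      simp only [Pi.add_apply, Pi.smul_apply, smul_eq_mul] at h3
      nlinarith
    · intro τ hτ ω P hP hh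
      exact hε1 ⟨τ, hτ⟩ ⟨ω, P, List.mem_toFinset.2 hP⟩ hh

theorem cls_iff (x : Fin n) : (cls x = 0 ↔ (x : ℕ) < n / 3) ∧
    (cls x = 1 ↔ n / 3 ≤ (x : ℕ) ∧ (x : ℕ) < 2 * (n / 3)) ∧
    (cls x = 2 ↔ 2 * (n / 3) ≤ (x : ℕ) ∧ (x : ℕ) < 3 * (n / 3)) := by
  have h : cls x = if (x : ℕ) < n / 3 then 0 else if (x : ℕ) < 2 * (n / 3) then 1 else
    if (x : ℕ) < 3 * (n / 3) then 2 else 3 := rfl
  generalize cls x = c at *
  generalize n / 3 = m at *
  split_ifs at h <;> omega

/-- the number of triangles -/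
theorem card_tr : Nat.card {τ : Fin n × Fin n × Fin n // IsTr τ} = (n / 3) ^ 3 := by
  have h1 : Nat.card {τ : Fin n × Fin n × Fin n // IsTr τ} =
      Nat.card (Fin (n / 3) × Fin (n / 3) × Fin (n / 3)) := by
    have hc : ∀ x : Fin n, (cls x = 0 ↔ (x : ℕ) < n / 3) ∧
        (cls x = 1 ↔ n / 3 ≤ (x : ℕ) ∧ (x : ℕ) < 2 * (n / 3)) ∧
        (cls x = 2 ↔ 2 * (n / 3) ≤ (x : ℕ) ∧ (x : ℕ) < 3 * (n / 3)) := by
      exact cls_iff
    have h3 : 3 * (n / 3) ≤ n := Nat.mul_div_le n 3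
    refine Nat.card_congr ⟨fun τ => (⟨τ.1.1, ((hc _).1.1 τ.2.c0)⟩,
      ⟨(τ.1.2.1 : ℕ) - n / 3, by have := ((hc _).2.1.1 τ.2.c1); omega⟩,
      ⟨(τ.1.2.2 : ℕ) - 2 * (n / 3), by have := ((hc _).2.2.1 τ.2.c2); omega⟩),
      fun x => ⟨(⟨x.1, by omega⟩, ⟨(x.2.1 : ℕ) + n / 3, by omega⟩,
        ⟨(x.2.2 : ℕ) + 2 * (n / 3), by omega⟩), ⟨?_, ?_, ?_⟩⟩, ?_, ?_⟩
    · rw [(hc _).1]
      exact x.1.2
    · rw [(hc _).2.1]
      dsimp only
      omega
    · rw [(hc _).2.2]
      dsimp only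
      omega
    · rintro ⟨⟨a, b, c⟩, h⟩
      have h4 := ((hc _).2.1.1 h.c1)
      have h5 := ((hc _).2.2.1 h.c2)
      dsimp only at h4 h5
      apply Subtype.ext
      refine Prod.ext ?_ (Prod.ext ?_ ?_)
      · rfl
      · apply Fin.ext
        dsimp only
        omega
      · apply Fin.ext
        dsimp only
        omega
    · rintro ⟨a, b, c⟩
      refine Prod.ext ?_ (Prod.ext ?_ ?_)
      · rfl
      · apply Fin.ext
        dsimp only
        omega
      · apply Fin.ext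
        dsimp only
        omega
  rw [h1, Nat.card_prod, Nat.card_prod, Nat.card_eq_fintype_card, Fintype.card_fin]
  ring

end

end Pool.Agent.K4H91.TT
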