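import Pool.Agent.K4H91.TT.Base

/-!
# The sign of a test near a generic tight point
-/

set_option autoImplicit false

namespace Pool.Agent.K4H91.TT

open Finset MvPolynomial Filter Topology

section

variable {n : ℕ}

/-- the violation of the triangle inequality for the path `i k j` -/
def vio (u : Sym2 (Fin n) → ℝ) (i k j : Fin n) : ℝ := u s(i, j) - u s(i, k) - u s(k, j)

theorem eval_vars {σ : Type} (P : MvPolynomial σ ℝ) (x y : σ → ℝ) (h : ∀ e ∈ P.vars, x e = y e) :
    eval x P = eval y P := by
  unfold eval
  exact eval₂Hom_congr' rfl (fun i hi _ => h i hi) rfl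

theorem exists_ne {σ : Type} {P : MvPolynomial σ ℝ} (h : P ≠ 0) : ∃ x, eval x P ≠ 0 := by
  by_contra hcon
  push Not at hcon
  exact h (MvPolynomial.funext fun x => by rw [hcon x, map_zero])

theorem eval_bind {σ τ : Type} (f : σ → MvPolynomial τ ℝ) (P : MvPolynomial σ ℝ) (x : τ → ℝ) :
    eval x (bind₁ f P) = eval (fun i => eval x (f i)) P := by
  induction P using MvPolynomial.induction_on with
  | C a => simp
  | add p q hp hq => simp [hp, hq]
  | mul_X p i hp => simp [hp]

theorem continuous_eval_line {σ : Type} (P : MvPolynomial σ ℝ) (γ : ℝ → σ → ℝ)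
    (hγ : ∀ i, Continuous fun t => γ t i) : Continuous fun t => eval (γ t) P := by
  induction P using MvPolynomial.induction_on with
  | C a => simpa using continuous_const
  | add p q hp hq =>
    simp only [map_add]
    exact hp.add hq
  | mul_X p i hp =>
    simp only [map_mul, eval_X]
    exact hp.mul (hγ i)

theorem W_vio (θ : Par n → ℝ) {i k j : Fin n} (hi : cls i = 0) (hk : cls k = 1) (hj : cls j = 2) :
    vio (W θ) i k j = 0 := by
  have tik : tight i k := ⟨by omega, by omega, by omega⟩
  have tkj : tight k j := ⟨by omega, by omega, by omega⟩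
  have tij : tight i j := ⟨by omega, by omega, by omega⟩
  unfold vio
  rw [W_tight θ tik, W_tight θ tkj, W_tight θ tij]
  have e1 : sg i k = 1 := if_neg (by omega)
  have e2 : sg k i = 1 := if_neg (by omega)
  have e3 : sg k j = -1 := if_pos (by omega)
  have e4 : sg j k = 1 := if_neg (by omega)
  have e5 : sg i j = 1 := if_neg (by omega)
  have e6 : sg j i = 1 := if_neg (by omega)
  rw [e1, e2, e3, e4, e5, e6]
  ring

/-- if `f ε → c ≠ 0` then `f` has the sign of `c` finally -/
theorem sign_of_tendsto {f : ℝ → ℝ} {c : ℝ} (hc : c ≠ 0) (hf : Tendsto f (𝓝[>] 0) (𝓝 c)) :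
    ∀ᶠ ε in 𝓝[>] (0 : ℝ), SignType.sign (f ε) = SignType.sign c := by
  rcases lt_or_gt_of_ne hc with h | h
  · filter_upwards [hf.eventually_lt_const h] with ε hε
    rw [sign_neg hε, sign_neg h]
  · filter_upwards [hf.eventually_const_lt h] with ε hε
    rw [sign_pos hε, sign_pos h]

theorem sub_dvd {σ : Type} [DecidableEq σ] (e0 : σ) (R : MvPolynomial σ ℝ) :
    X e0 ∣ R - bind₁ (fun e => if e = e0 then 0 else X e) R := by
  induction R using MvPolynomial.induction_on with
  | C a => simp
  | add p q hp hq =>
    rw [map_add]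
    have := dvd_add hp hq
    refine this.trans (dvd_of_eq ?_)
    ring
  | mul_X p i hp =>
    rw [map_mul, bind₁_X_right]
    have h1 : p * X i - bind₁ (fun e => if e = e0 then 0 else X e) p *
        (if i = e0 then 0 else X i) =
        (p - bind₁ (fun e => if e = e0 then 0 else X e) p) * X i +
          bind₁ (fun e => if e = e0 then 0 else X e) p * (X i - if i = e0 then 0 else X i) := by
      ring
    rw [h1]
    refine dvd_add (hp.mul_right _) ?_
    by_cases h : i = e0
    · subst h
      simp
    · simp [h]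

/-- the sign of a test with few cycles near a generic tight point -/
theorem sign_lemma (P : MvPolynomial (Sym2 (Fin n)) ℝ) (T : Finset (Sym2 (Fin n))) (hT : Tame T)
    (hP : P.vars ⊆ T) : ∃ Q : MvPolynomial (Par n) ℝ, Q ≠ 0 ∧ ∀ θ : Par n → ℝ, eval θ Q ≠ 0 →
      ∀ u u' : Sym2 (Fin n) → ℝ, (∀ i k j : Fin n, cls i = 0 → cls k = 1 → cls j = 2 →
        s(i, k) ∈ P.vars → s(k, j) ∈ P.vars → s(i, j) ∈ P.vars →
        vio u i k j ≠ 0 ∧ SignType.sign (vio u i k j) = SignType.sign (vio u' i k j)) →
      ∀ᶠ ε in 𝓝[>] (0 : ℝ), SignType.sign (eval (W θ + ε • u) P) =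
        SignType.sign (eval (W θ + ε • u') P) := by
  classical
  by_cases hP0 : P = 0
  · refine ⟨1, one_ne_zero, fun θ _ u u' _ => ?_⟩
    rw [hP0]
    simp
  have hR := real_subset hT hP
  by_cases htri : ∃ i k j : Fin n, cls i = 0 ∧ cls k = 1 ∧ cls j = 2 ∧ s(i, k) ∈ P.vars ∧
      s(k, j) ∈ P.vars ∧ s(i, j) ∈ P.vars
  swap
  · -- no triangle
    refine ⟨bind₁ Wp P, ?_, fun θ hθ u u' _ => ?_⟩
    · obtain ⟨x, hx⟩ := exists_ne hP0
      obtain ⟨θ, hθ⟩ := hR x (fun i k j hi hk hj h1 h2 h3 =>
        absurd ⟨i, k, j, hi, hk, hj, h1, h2, h3⟩ htri)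
      intro h0
      apply hx
      rw [← eval_vars P (W θ) x hθ]
      have : eval θ (bind₁ Wp P) = 0 := by rw [h0, map_zero]
      rw [eval_bind] at this
      exact this
    · rw [eval_bind] at hθ
      have key : ∀ u : Sym2 (Fin n) → ℝ, ∀ᶠ ε in 𝓝[>] (0 : ℝ),
          SignType.sign (eval (W θ + ε • u) P) = SignType.sign (eval (W θ) P) := by
        intro u
        apply sign_of_tendsto hθ
        have hc : Continuous fun ε : ℝ => eval (W θ + ε • u) P := by
          apply continuous_eval_line
          intro i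
          simp only [Pi.add_apply, Pi.smul_apply, smul_eq_mul]
          fun_prop
        have := hc.tendsto 0
        rw [zero_smul, add_zero] at this
        exact this.mono_left nhdsWithin_le_nhds
      filter_upwards [key u, key u'] with ε h1 h2
      rw [h1, h2]
  -- one triangle
  obtain ⟨i, k, j, hi, hk, hj, h1, h2, h3⟩ := htri
  have hik : i ≠ k := by rintro rfl; omega
  have hkj : k ≠ j := by rintro rfl; omega
  have n1 : s(i, k) ≠ s(i, j) := by
    rw [Ne, Sym2.congr_right]
    exact hkj
  have n2 : s(k, j) ≠ s(i, j) := by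
    rw [Ne, Sym2.congr_left]
    exact hik.symm
  have hu := tri_unique hT
  let V : Type := {e : Sym2 (Fin n) // e ∈ P.vars}
  let e0 : V := ⟨s(i, j), h3⟩
  let e1 : V := ⟨s(i, k), h1⟩
  let e2 : V := ⟨s(k, j), h2⟩
  have m1 : e1 ≠ e0 := fun h => n1 (congrArg Subtype.val h)
  have m2 : e2 ≠ e0 := fun h => n2 (congrArg Subtype.val h)
  obtain ⟨P', hP'⟩ := exists_rename_eq_of_vars_subset_range P (Subtype.val : V → Sym2 (Fin n))
    Subtype.val_injective (fun e he => ⟨⟨e, he⟩, rfl⟩)
  have evP : ∀ x : Sym2 (Fin n) → ℝ, eval x P = eval (fun e : V => x e) P' := by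
    intro x
    have := congrArg (eval x) hP'
    rw [eval_rename] at this
    exact this.symm
  let Pt : MvPolynomial V ℝ := bind₁ (fun e => if e = e0 then X e0 + X e1 + X e2 else X e) P'
  have evPt : ∀ y : V → ℝ, eval y Pt =
      eval (fun e => if e = e0 then y e0 + y e1 + y e2 else y e) P' := by
    intro y
    rw [eval_bind]
    congr 2
    funext e
    split_ifs <;> simp
  -- the value of `P` in terms of the violation
  have evx : ∀ x : Sym2 (Fin n) → ℝ, eval x P =
      eval (fun e : V => if e = e0 then vio x i k j else x e) Pt := by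
    intro x
    rw [evP, evPt]
    congr 2
    funext e
    by_cases he : e = e0
    · subst he
      rw [if_pos rfl, if_pos rfl, if_neg m1, if_neg m2]
      show x s(i, j) = vio x i k j + x s(i, k) + x s(k, j)
      unfold vio
      ring
    · rw [if_neg he, if_neg he]
  have hPt : Pt ≠ 0 := by
    intro h0
    obtain ⟨x, hx⟩ := exists_ne hP0
    rw [evx, h0, map_zero] at hx
    exact hx rfl
  have hX : ¬ IsUnit (X e0 : MvPolynomial V ℝ) := by
    intro hunit
    have h4 := hunit.map (eval (fun _ : V => (0 : ℝ)))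
    simp at h4
  obtain ⟨R, hR1, hR2⟩ := (FiniteMultiplicity.of_not_isUnit hX hPt).exists_eq_pow_mul_and_not_dvd
  set m := multiplicity (X e0) Pt with hm
  let R0 : MvPolynomial V ℝ := bind₁ (fun e => if e = e0 then 0 else X e) R
  have evR0 : ∀ y : V → ℝ, eval y R0 = eval (fun e => if e = e0 then 0 else y e) R := by
    intro y
    rw [eval_bind]
    congr 2
    funext e
    split_ifs <;> simp
  have hR0 : R0 ≠ 0 := by
    intro h0
    apply hR2
    have := sub_dvd e0 R
    rw [show bind₁ (fun e => if e = e0 then 0 else X e) R = 0 from h0, sub_zero] at this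
    exact this
  refine ⟨bind₁ (fun e : V => Wp e) R0, ?_, fun θ hθ u u' hs => ?_⟩
  · obtain ⟨y, hy⟩ := exists_ne hR0
    -- extend `y` to a tight assignment
    let x : Sym2 (Fin n) → ℝ := fun e => if h : e ∈ P.vars then
      (if e = s(i, j) then y e1 + y e2 else y ⟨e, h⟩) else 0
    have x1 : x s(i, k) = y e1 := by
      simp only [x]
      rw [dif_pos h1, if_neg n1]
    have x2 : x s(k, j) = y e2 := by
      simp only [x]
      rw [dif_pos h2, if_neg n2]
    have x0 : x s(i, j) = y e1 + y e2 := by
      simp only [x]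
      rw [dif_pos h3]
      simp
    obtain ⟨θ, hθ⟩ := hR x (fun i' k' j' hi' hk' hj' g1 g2 g3 => by
      obtain ⟨rfl, rfl, rfl⟩ := hu i k j i' k' j' hi hk hj hi' hk' hj' (hP h1) (hP h2) (hP h3)
        (hP g1) (hP g2) (hP g3)
      rw [x0, x1, x2])
    intro h0
    apply hy
    have h5 : eval θ (bind₁ (fun e : V => Wp e) R0) = 0 := by rw [h0, map_zero]
    rw [eval_bind, evR0] at h5
    rw [evR0]
    refine Eq.trans ?_ h5
    congr 2
    funext e
    by_cases he : e = e0
    · rw [if_pos he, if_pos he]
    · rw [if_neg he, if_neg he]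
      have h6 := hθ e.1 e.2
      unfold W at h6
      rw [h6]
      simp only [x]
      rw [dif_pos e.2, if_neg (fun h => he (Subtype.ext h))]
  · rw [eval_bind, evR0] at hθ
    obtain ⟨hs1, hs2⟩ := hs i k j hi hk hj h1 h2 h3
    have hv := W_vio θ hi hk hj
    have hval : ∀ (u : Sym2 (Fin n) → ℝ) (ε : ℝ), eval (W θ + ε • u) P =
        (ε * vio u i k j) ^ m * eval (fun e : V => if e = e0 then ε * vio u i k j else
          W θ e + ε * u e) R := by
      intro u ε
      have h7 : vio (W θ + ε • u) i k j = ε * vio u i k j := by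
        unfold vio at hv ⊢
        simp only [Pi.add_apply, Pi.smul_apply, smul_eq_mul]
        linear_combination hv
      rw [evx, hR1, map_mul, map_pow, eval_X, if_pos rfl, h7]
      rfl
    have key : ∀ u : Sym2 (Fin n) → ℝ, ∀ᶠ ε in 𝓝[>] (0 : ℝ),
        SignType.sign (eval (fun e : V => if e = e0 then ε * vio u i k j else
          W θ e + ε * u e) R) =
        SignType.sign (eval (fun e : V => if e = e0 then 0 else eval θ (Wp e.1)) R) := by
      intro u
      apply sign_of_tendsto hθ
      have hc : Continuous fun ε : ℝ => eval (fun e : V => if e = e0 then ε * vio u i k j else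
          W θ e + ε * u e) R := by
        apply continuous_eval_line
        intro e
        by_cases he : e = e0
        · simp only [if_pos he]
          fun_prop
        · simp only [if_neg he]
          fun_prop
      have h8 := hc.tendsto 0
      have h9 : (fun e : V => if e = e0 then (0 : ℝ) * vio u i k j else W θ e + 0 * u e) =
          fun e : V => if e = e0 then 0 else eval θ (Wp e.1) := by
        funext e
        split_ifs
        · ring
        · unfold W
          ring
      rw [h9] at h8
      exact h8.mono_left nhdsWithin_le_nhds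
    filter_upwards [key u, key u', self_mem_nhdsWithin] with ε g1 g2 g3
    have g3 : (0 : ℝ) < ε := g3
    rw [hval u, hval u', sign_mul, sign_mul, sign_pow, sign_pow, g1, g2, sign_mul, sign_mul, hs2]

end

end Pool.Agent.K4H91.TT
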